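import Pool.Agent.helper7.ZD.Spec

/-!
# NUB (MP_baa4d7_al, THEOREM ZD): unit classes of the same block, and conjugation
-/

set_option autoImplicit false

namespace Pool.Agent.ND.NY

open Pool.Agent.helper58.DC Pool.Agent.DI Pool.Agent.GR Pool.Agent.OB Pool.Agent.DR Pool.Agent.FI Pool.Agent.FI3 Pool.Agent.FI4 Pool.Agent.FI4I Pool.Agent.LE Pool.Agent.L5 Pool.Agent.NAB
open Pool.Agent.ZB (Pm Om KZ EQ BQ lQ MZc BDK)

theorem NUB_up {p e : ℕ} {m : Pm} {M : Ideal (integralClosure ℤ ℂ)} (hM : Setup p M) {G : Type} [Group G] [Finite G] {L : Subgroup G}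
    {ψ : G → ℂ} {z x : G} (h : Ucl p e m M L ψ z x) : ∃ m' : ℕ, Pool.Agent.NAB.Ucl p e m' M L ψ z x := by
  refine ⟨pp p (Cz L (z * x)), ?_⟩
  exact
    { pe := h.pe
      re := h.re
      co := h.co
      zm := h.zm
      xm := h.xm
      od := h.od
      ne := h.ne
      cd := by
        have h1 : pp p (Cz L (z * x)) < p ^ pp p (Cz L (z * x)) := Nat.lt_pow_self hM.pr.one_lt
        have h2 : p ^ pp p (Cz L (z * x)) ≤ p ^ (e + pp p (Cz L (z * x))) := Nat.pow_le_pow_right hM.pr.pos (Nat.le_add_left _ _)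
        exact h1.le.trans h2 }

theorem NUB_dn {p e m' : ℕ} {m : Pm} {M : Ideal (integralClosure ℤ ℂ)} {G : Type} [Group G] {L : Subgroup G}
    {ψ : G → ℂ} {z x : G} (h : Pool.Agent.NAB.Ucl p e m' M L ψ z x) (hd : ∃ (D : Subgroup G) (y : G), DefL p M L ψ D y ∧ KY p e m D) :
    Ucl p e m M L ψ z x :=
  { pe := h.pe
    re := h.re
    co := h.co
    zm := h.zm
    xm := h.xm
    od := h.od
    ne := h.ne
    df := hd }

theorem NUB (hNUB : Pool.Agent.NAB.NUB_stmt) (hZUB : Pool.Agent.ZB.ZUB_stmt) (hYE1 : YE1_stmt) : NUB_stmt := by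
  intro p e m M hM G _ _ L ψ z x hU
  obtain ⟨m', hU'⟩ := NUB_up hM hU
  obtain ⟨h1, h2, h3⟩ := hNUB p e m' M hM G L ψ z x hU'
  obtain ⟨D, y, hD, hK⟩ := hU.df
  obtain ⟨a1, a2, -⟩ := hZUB p M hM G L ψ D y hD
  refine ⟨fun ψ' hSB => NUB_dn (h1 ψ' hSB) ⟨D, y, a1 ψ' hSB, hK⟩, fun g => ?_, fun l hl => NUB_dn (h3 l hl) ⟨D, y, hD, hK⟩⟩
  have hK2 : KY p e m (cjS g D) := ((hYE1 p hM.pr m G D).1 e hK).2.2.2.2.1 g
  exact NUB_dn (h2 g) ⟨cjS g D, g * y * g⁻¹, a2 g, hK2⟩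

end Pool.Agent.ND.NY
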